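import Mathlib
import Pool.Prelude.Def_H_3587d628

/-! Crossing families of segments spanned by points with integer coordinates. -/

namespace Pool.Agent.P.MP_0d06a5_lc

/-- A point with integer coordinates. -/
abbrev Pt := ℤ × ℤ

/-- The point of the real plane with these coordinates. -/
def emb (p : Pt) : ℝ × ℝ := ((p.1 : ℝ), (p.2 : ℝ))

/-- The closed segments with endpoints `s.1, s.2` and `t.1, t.2` have exactly one common point,
and it lies in the relative interior of both. -/
def CrossProperly (s t : Pt × Pt) : Prop :=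
  ∃ z : ℝ × ℝ, segment ℝ (emb s.1) (emb s.2) ∩ segment ℝ (emb t.1) (emb t.2) = {z} ∧
    z ∈ openSegment ℝ (emb s.1) (emb s.2) ∧ z ∈ openSegment ℝ (emb t.1) (emb t.2)

/-- `F` is a set of segments (given by their two distinct endpoints, both in `S`), every two of
which cross properly. -/
def IsCrossingFamily (S : List Pt) (F : Finset (Pt × Pt)) : Prop :=
  (∀ s ∈ F, s.1 ∈ S ∧ s.2 ∈ S ∧ s.1 ≠ s.2) ∧ (F : Set (Pt × Pt)).Pairwise CrossProperly

/-- The largest number of segments in a crossing family in `S`. -/
noncomputable def cf (S : List Pt) : ℕ :=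
  sSup {n : ℕ | ∃ F, IsCrossingFamily S F ∧ F.card = n}

/-- The points of `S` are distinct and no three of them are collinear. -/
def GeneralPosition (S : List Pt) : Prop :=
  S.Nodup ∧ ∀ p ∈ S, ∀ q ∈ S, ∀ r ∈ S, p ≠ q → p ≠ r → q ≠ r →
    ¬ Collinear ℝ {emb p, emb q, emb r}

end Pool.Agent.P.MP_0d06a5_lc
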