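import Pool.Agent.P.MP_0d06a5_lc.Cross

/-! Perturbation of integer points into general position, and elementary inequalities. -/

namespace Pool.Agent.P.MP_0d06a5_lc

/-- Scale a point by `N` and move it by `(i, i ^ 2)`. -/
def pert (N : ℤ) (p : Pt) (i : ℤ) : Pt := (N * p.1 + i, N * p.2 + i * i)

theorem abs_mul_le' {a b A B : ℤ} (ha : |a| ≤ A) (hb : |b| ≤ B) : |a * b| ≤ A * B := by
  rw [abs_mul]
  exact mul_le_mul ha hb (abs_nonneg _) ((abs_nonneg _).trans ha)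

theorem ori_pert {N B m i j k : ℤ} {p q r : Pt} (hp1 : |p.1| ≤ B) (hp2 : |p.2| ≤ B)
    (hq1 : |q.1| ≤ B) (hq2 : |q.2| ≤ B) (hr1 : |r.1| ≤ B) (hr2 : |r.2| ≤ B)
    (hi : 0 ≤ i) (hi' : i < m) (hj : 0 ≤ j) (hj' : j < m) (hk : 0 ≤ k) (hk' : k < m) :
    ∃ o : ℤ, |o| ≤ 8 * B * (m * m) ∧ |(j - i) * (k - i) * (k - j)| ≤ m * m * m ∧
      ori (pert N p i) (pert N q j) (pert N r k) =
        N * N * ori p q r + N * o + (j - i) * (k - i) * (k - j) := by
  have hB : 0 ≤ B := (abs_nonneg _).trans hp1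
  have d : ∀ {x y : ℤ}, |x| ≤ B → |y| ≤ B → |x - y| ≤ 2 * B := fun hx hy => by
    rw [abs_le] at *; constructor <;> linarith [hx.1, hx.2, hy.1, hy.2]
  have e : ∀ {x y : ℤ}, 0 ≤ x → x < m → 0 ≤ y → y < m → |x - y| ≤ m := fun h1 h2 h3 h4 => by
    rw [abs_le]; constructor <;> linarith
  have e' : ∀ {x y : ℤ}, 0 ≤ x → x < m → 0 ≤ y → y < m → |x - y| ≤ m * m := fun h1 h2 h3 h4 => by
    rw [abs_le]; constructor <;> nlinarith
  have f : ∀ {x y : ℤ}, 0 ≤ x → x < m → 0 ≤ y → y < m → |x * x - y * y| ≤ m * m :=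
    fun h1 h2 h3 h4 => by rw [abs_le]; constructor <;> nlinarith
  refine ⟨(q.1 - p.1) * (k * k - i * i) + (r.2 - p.2) * (j - i) - (q.2 - p.2) * (k - i) -
    (r.1 - p.1) * (j * j - i * i), ?_, ?_, ?_⟩
  · have a1 := abs_mul_le' (d hq1 hp1) (f hk hk' hi hi')
    have a2 := abs_mul_le' (d hr2 hp2) (e' hj hj' hi hi')
    have a3 := abs_mul_le' (d hq2 hp2) (e' hk hk' hi hi')
    have a4 := abs_mul_le' (d hr1 hp1) (f hj hj' hi hi')
    rw [abs_le] at *
    constructor <;> linarith [a1.1, a1.2, a2.1, a2.2, a3.1, a3.2, a4.1, a4.2]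
  · exact abs_mul_le' (abs_mul_le' (e hj hj' hi hi') (e hk hk' hi hi')) (e hk hk' hj hj')
  · simp only [ori, pert]; ring

theorem dom_pos {N A C x o c : ℤ} (hN : A + C < N) (ho : |o| ≤ A) (hc : |c| ≤ C) (hx : 0 < x) :
    0 < N * N * x + N * o + c := by
  have h1 := abs_nonneg o
  have h2 := abs_nonneg c
  rw [abs_le] at ho hc
  have h3 : 0 < N := by linarith
  have h4 : N * N * 1 ≤ N * N * x := by gcongr; exact hx
  have h5 : N * (C + 1) ≤ N * (N + o) := mul_le_mul_of_nonneg_left (by linarith [ho.1]) h3.le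
  nlinarith [hc.1]

theorem dom_neg {N A C x o c : ℤ} (hN : A + C < N) (ho : |o| ≤ A) (hc : |c| ≤ C) (hx : x < 0) :
    N * N * x + N * o + c < 0 := by
  have := dom_pos (x := -x) (o := -o) (c := -c) hN (by rwa [abs_neg]) (by rwa [abs_neg])
    (by linarith)
  linarith

theorem dom_ne {N A C x o c : ℤ} (hN : A + C < N) (ho : |o| ≤ A) (hc : |c| ≤ C) (hc0 : c ≠ 0) :
    N * N * x + N * o + c ≠ 0 := by
  rcases lt_trichotomy x 0 with h | h | h
  · exact (dom_neg hN ho hc h).ne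
  · subst h
    have h1 := abs_nonneg o
    have h2 := abs_nonneg c
    rw [abs_le] at hc
    rcases lt_trichotomy o 0 with h | h | h
    · have : N * o ≤ N * (-1) := by gcongr <;> linarith
      intro h'; nlinarith [hc.2]
    · simpa [h] using hc0
    · have : N * 1 ≤ N * o := by gcongr <;> linarith
      intro h'; nlinarith [hc.1]
  · exact (dom_pos hN ho hc h).ne'

theorem pert_inj {N m i j : ℤ} {p q : Pt} (hN : m ≤ N) (hi : 0 ≤ i) (hi' : i < m) (hj : 0 ≤ j)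
    (hj' : j < m) (h : pert N p i = pert N q j) : i = j := by
  have h1 : N * p.1 + i = N * q.1 + j := congrArg Prod.fst h
  rcases lt_trichotomy p.1 q.1 with h | h | h
  · have : N * (p.1 + 1) ≤ N * q.1 := by gcongr <;> linarith
    linarith
  · rw [h] at h1; linarith
  · have : N * (q.1 + 1) ≤ N * p.1 := by gcongr <;> linarith
    linarith

theorem ineq1 {a b U cs ct h : ℤ} (ha : 0 < a) (hab : 8 * a ≤ b) (hU : 0 < U)
    (hs : -(2 * U * a) ≤ cs) (ht : ct ≤ 2 * U * b) (hh : 2 * U ≤ h) (hc : ct ≤ 0 ∨ 4 * U ≤ h) :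
    ct - cs < (b - a) * h := by
  have h0 : 0 < U * a := mul_pos hU ha
  rcases hc with hc | hc
  · have : (b - a) * (2 * U) ≤ (b - a) * h := by gcongr; linarith
    nlinarith
  · have : (b - a) * (4 * U) ≤ (b - a) * h := by gcongr; linarith
    nlinarith

theorem ineq2 {a b x U cs h : ℤ} (ha : 0 < a) (hab : 8 * a ≤ b) (hU : 0 < U) (hx : 8 * a ≤ x)
    (hs : -(2 * U * a) ≤ cs) (hh : 2 * U ≤ h) : 2 * U * b - U * x - cs < (b - a) * h := by
  have h0 : 0 < U * a := mul_pos hU ha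
  have : (b - a) * (2 * U) ≤ (b - a) * h := by gcongr; linarith
  nlinarith

theorem ineq3 {a b E U cs ct : ℤ} (ha : 0 < a) (hab : 8 * a ≤ b) (hU : 0 < U) (hE : 0 ≤ E)
    (hs : -(2 * U * a) ≤ cs) (ht : ct ≤ 2 * U * b) (h : U * a ≤ E * b) :
    ct - cs < (b - a) * (2 * U + 6 * E) := by
  have h0 : 0 < U * a := mul_pos hU ha
  have : E * (8 * a) ≤ E * b := by gcongr
  nlinarith

theorem ineq4 {a b x E U cs : ℤ} (ha : 0 < a) (hU : 0 < U) (hE : 0 ≤ E) (hx : x ≤ a)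
    (hs : cs ≤ 0) (h : 8 * (E * b) ≤ U * a) :
    (b - a) * (2 * U + 6 * E) < 2 * U * b - U * x - cs := by
  have h0 : 0 < U * a := mul_pos hU ha
  have h1 : 0 ≤ E * a := by positivity
  have : U * x ≤ U * a := by gcongr
  nlinarith

end Pool.Agent.P.MP_0d06a5_lc
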