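import Pool.Agent.P.MP_0d06a5_lc.Reduce

/-! Membership in NP and the search-to-decision reduction. -/

namespace Pool.Agent.P.MP_0d06a5_lc

open Pool.Agent.Lib.PolyTime N68a2faeb N487b59b3

/-- Codes of elements of `α` can be parsed by a total polynomial-time function. -/
def Prs (α : Type) [N487b59b3 α] : Prop := ∃ g : Str → α, PT g ∧ ∀ a, g (bitEncode a) = a

section
variable {α β : Type} [N487b59b3 α] [N487b59b3 β]

theorem Prs.nat : Prs ℕ := ⟨ofBits, by fun_prop, fun n => by rw [enc_nat, ofBits_bits]⟩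

theorem Prs.pair (ha : Prs α) (hb : Prs β) : Prs (α × β) := by
  obtain ⟨f, hf, h⟩ := ha
  obtain ⟨g, hg, h'⟩ := hb
  refine ⟨fun l => (f ((blocks l).headD []), g (l.drop (2 * ((blocks l).headD []).length + 1))),
    by fun_prop, fun p => ?_⟩
  simp only [enc_pair' p, headD_blocks]
  rw [← length_delimit, List.drop_left, h, h']

theorem Prs.list (ha : Prs α) : Prs (List α) := by
  obtain ⟨f, hf, h⟩ := ha
  refine ⟨fun l => (blocks l).map f, by fun_prop, fun l => ?_⟩
  simp [blocks_enc, Function.comp_def, h]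

theorem Prs.int : Prs ℤ := by
  obtain ⟨f, hf, h⟩ := Prs.nat.pair Prs.nat
  refine ⟨fun l => ((f l).1 : ℤ) - (f l).2, by fun_prop, fun z => ?_⟩
  simp only [enc_int, h]; omega

theorem typed_NP (ha : Prs α) (hb : Prs β) (V : α → β → Prop) (Q : α → Prop)
    (hV : PTP fun p : α × β => V p.1 p.2) (g : α → ℕ) (hg : Small g)
    (sound : ∀ a b, V a b → Q a) (complete : ∀ a, Q a → ∃ b, sz b ≤ g a ∧ V a b) :
    ∃ L ∈ NP, ∀ a, L (bitEncode a) = true ↔ Q a := by
  classical
  obtain ⟨f, hf, h⟩ := ha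
  obtain ⟨f', hf', h'⟩ := hb
  refine ⟨fun x => decide (Q (f x)), mem_NP_of_small (fun x y => V (f x) y) f'
    (hV.comp (g := fun p : Str × β => (f p.1, p.2)) (by fun_prop)) hf' (fun x => g (f x))
    (hg.comp hf) (fun x y hv => by simpa using sound _ _ hv) fun x hx => ?_, fun a => by simp [h]⟩
  obtain ⟨b, h1, h2⟩ := complete (f x) (by simpa using hx)
  exact ⟨bitEncode b, h1, by rwa [h']⟩

end

/-- The list `F₀` extends to a crossing family with at least `k` segments. -/
def Ext (S : List Pt) (F₀ : List (Pt × Pt)) (k : ℕ) : Prop :=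
  ∃ F, IsCrossingFamily S F ∧ (∀ s ∈ F₀, s ∈ F) ∧ k ≤ F.card

theorem ext_nil {S : List Pt} {k : ℕ} : Ext S [] k ↔ k ≤ cf S := by
  simp [Ext, le_cf_iff]

theorem card_le_sq {S : List Pt} {F : Finset (Pt × Pt)} (h : IsCrossingFamily S F) :
    F.card ≤ S.length * S.length := by
  refine (card_le_of_family h).trans ?_
  rw [Finset.card_product]
  exact Nat.mul_le_mul (List.toFinset_card_le _) (List.toFinset_card_le _)

theorem ptp_X : PTP fun p : (Pt × Pt) × (Pt × Pt) => X p.1 p.2 := by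
  have h : PT fun p : Pt × Pt × Pt => ori p.1 p.2.1 p.2.2 := by unfold ori; fun_prop
  have h1 := h.comp (g := fun p : (Pt × Pt) × (Pt × Pt) => (p.1.1, p.1.2, p.2.1)) (by fun_prop)
  have h2 := h.comp (g := fun p : (Pt × Pt) × (Pt × Pt) => (p.1.1, p.1.2, p.2.2)) (by fun_prop)
  have h3 := h.comp (g := fun p : (Pt × Pt) × (Pt × Pt) => (p.2.1, p.2.2, p.1.1)) (by fun_prop)
  have h4 := h.comp (g := fun p : (Pt × Pt) × (Pt × Pt) => (p.2.1, p.2.2, p.1.2)) (by fun_prop)
  exact (PTP.int_lt (h1.int_mul h2) (PT.const 0)).and (PTP.int_lt (h3.int_mul h4) (PT.const 0))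

theorem prs_pt : Prs Pt := Prs.int.pair Prs.int

theorem ext_NP : ∃ L ∈ NP, ∀ a : List Pt × List (Pt × Pt) × ℕ,
    L (bitEncode a) = true ↔ Ext a.1 a.2.1 a.2.2 := by
  refine typed_NP (prs_pt.list.pair ((prs_pt.pair prs_pt).list.pair Prs.nat))
    (prs_pt.pair prs_pt).list
    (fun a F => (∀ s ∈ F, s.1 ∈ a.1 ∧ s.2 ∈ a.1 ∧ s.1 ≠ s.2) ∧ (∀ s ∈ F, ∀ t ∈ F, s ≠ t → X s t) ∧
      (∀ s ∈ a.2.1, s ∈ F) ∧ (∀ s ∈ F, F.countP (fun t => decide (t = s)) ≤ 1) ∧ a.2.2 ≤ F.length)
    _ ?_ (fun a => a.1.length * a.1.length * (2 * (3 * sz a.1 + 1) + 1)) (by fun_prop) ?_ ?_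
  · refine PTP.and (PTP.forall_mem (by fun_prop) (by fun_prop)) (PTP.and ?_ (PTP.and
      (PTP.forall_mem (by fun_prop) (by fun_prop)) (PTP.and
      (PTP.forall_mem (by fun_prop) (by fun_prop)) (by fun_prop))))
    refine PTP.forall_mem (by fun_prop) (PTP.forall_mem (by fun_prop) (PTP.imp (by fun_prop) ?_))
    exact ptp_X.comp (g := fun q : (((List Pt × List (Pt × Pt) × ℕ) × List (Pt × Pt)) × Pt × Pt) ×
      Pt × Pt => (q.1.2, q.2)) (by fun_prop)
  · rintro ⟨S, F₀, k⟩ F ⟨h1, h2, h3, h4, h5⟩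
    have hn : F.Nodup := by
      rw [List.nodup_iff_count_le_one]
      intro s
      by_cases hs : s ∈ F
      · simpa [List.count, beq_eq_decide] using h4 s hs
      · simp [List.count_eq_zero_of_not_mem hs]
    exact ⟨F.toFinset, family_iff.2 ⟨by simpa using h1, by simpa using h2⟩, by simpa using h3,
      by rwa [List.toFinset_card_of_nodup hn]⟩
  · rintro ⟨S, F₀, k⟩ ⟨F, h1, h2, h3⟩
    have h4 := family_iff.1 h1
    refine ⟨F.toList, (sz_le_of_forall (B := 3 * sz S + 1) fun s hs => ?_).trans ?_,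
      by simpa using h4.1, by simpa using h4.2, by simpa using h2, fun s _ => ?_, by simpa using h3⟩
    · have h5 := h4.1 s (Finset.mem_toList.1 hs)
      have h6 : sz s.1 ≤ sz S := sz_le_of_mem h5.1
      have h7 : sz s.2 ≤ sz S := sz_le_of_mem h5.2.1
      rw [sz_pair']; omega
    · rw [Finset.length_toList]
      exact Nat.mul_le_mul_right _ (card_le_sq h1)
    · simpa [List.count, beq_eq_decide] using List.nodup_iff_count_le_one.1 F.nodup_toList s

theorem cf_NP : ∃ L ∈ NP, ∀ (S : List Pt) (k : ℕ), L (bitEncode (S, k)) = true ↔ k ≤ cf S := by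
  obtain ⟨L, hL, h⟩ := ext_NP
  obtain ⟨g, hg, h'⟩ := prs_pt.list.pair Prs.nat
  refine ⟨fun x => L (bitEncode ((g x).1, ([] : List (Pt × Pt)), (g x).2)),
    NP_of_reduce (f := fun x => bitEncode ((g x).1, ([] : List (Pt × Pt)), (g x).2))
      (by fun_prop) (fun _ => rfl) hL, fun S k => ?_⟩
  simp only [h', h, ext_nil]

theorem countP_range {c N : ℕ} (h : c ≤ N) :
    (List.range N).countP (fun j => decide (j + 1 ≤ c)) = c := by
  obtain ⟨d, rfl⟩ := Nat.exists_eq_add_of_le h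
  rw [List.range_add, List.countP_append, List.countP_eq_length.2 (by simp),
    List.countP_eq_zero.2 (by simp)]
  simp

theorem greedy {S : List Pt} {k : ℕ} (E : List (Pt × Pt) → Bool) (hE : ∀ F, E F = true ↔ Ext S F k)
    (l acc : List (Pt × Pt)) :
    let r := l.foldl (fun acc s => if ¬ s ∈ acc ∧ E (s :: acc) = true then s :: acc else acc) acc
    (∀ s ∈ acc, s ∈ r) ∧ (acc.Nodup → r.Nodup) ∧ (Ext S acc k → Ext S r k) ∧
      ∀ F, IsCrossingFamily S F → k ≤ F.card → (∀ s ∈ r, s ∈ F) → ∀ s ∈ l, s ∈ F → s ∈ r := by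
  induction l generalizing acc with
  | nil => simp
  | cons x l ih =>
    simp only [List.foldl_cons]
    split_ifs with h
    · obtain ⟨h1, h2, h3, h4⟩ := ih (x :: acc)
      refine ⟨fun s hs => h1 s (by simp [hs]), fun hn => h2 (by simp [hn, h.1]),
        fun _ => h3 ((hE _).1 h.2), fun F f1 f2 f3 s hs hs' => ?_⟩
      rcases List.mem_cons.1 hs with rfl | hs
      · exact h1 _ (by simp)
      · exact h4 F f1 f2 f3 s hs hs'
    · obtain ⟨h1, h2, h3, h4⟩ := ih acc
      refine ⟨h1, h2, h3, fun F f1 f2 f3 s hs hs' => ?_⟩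
      rcases List.mem_cons.1 hs with rfl | hs
      · refine h1 _ (by_contra fun hn => h ⟨hn, (hE _).2 ⟨F, f1, fun t ht => ?_, f2⟩⟩)
        rcases List.mem_cons.1 ht with rfl | ht
        · exact hs'
        · exact f3 t (h1 t ht)
      · exact h4 F f1 f2 f3 s hs hs'

theorem search (h : N68a2faeb.P = NP) : ∃ A : List Pt → List (Pt × Pt), PT A ∧
    ∀ S, (A S).Nodup ∧ IsCrossingFamily S (A S).toFinset ∧ (A S).length = cf S := by
  obtain ⟨L, hL, hE⟩ : ∃ L : Str → Bool, PT L ∧ ∀ a : List Pt × List (Pt × Pt) × ℕ,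
      L (bitEncode a) = true ↔ Ext a.1 a.2.1 a.2.2 := by
    obtain ⟨L, hL, hE⟩ := ext_NP
    exact ⟨L, mem_P_iff.1 (h ▸ hL), hE⟩
  obtain ⟨K, hK, hK'⟩ : ∃ K : List Pt → ℕ, PT K ∧ ∀ S, K S = cf S := by
    refine ⟨fun S => (List.range (S.length * S.length)).countP
      fun j => L (bitEncode (S, ([] : List (Pt × Pt)), j + 1)), by fun_prop, fun S => ?_⟩
    obtain ⟨F, hF, e⟩ := exists_cf S
    have h1 : cf S ≤ S.length * S.length := e ▸ card_le_sq hF
    refine Eq.trans ?_ (countP_range h1)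
    refine List.countP_congr fun j _ => ?_
    simp only [hE, ext_nil, decide_eq_true_eq]
  refine ⟨fun S => (S.flatMap fun p => S.map fun q => (p, q)).foldl (fun acc s =>
    if ¬ s ∈ acc ∧ L (bitEncode (S, s :: acc, K S)) = true then s :: acc else acc) [], ?_,
    fun S => ?_⟩
  · refine PT.foldl_growth (f := fun S acc s =>
      if ¬ s ∈ acc ∧ L (bitEncode (S, s :: acc, K S)) = true then s :: acc else acc)
      (by fun_prop) (by fun_prop) (by fun_prop) (fun p => 2 * sz p.2 + 1)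
      (PB.of_le_add 2 fun p => by rw [sz_pair' p]; omega) fun a b x => ?_
    split_ifs
    · simp; omega
    · omega
  · obtain ⟨-, h2, h3, h4⟩ := greedy (S := S) (k := K S)
      (fun F => L (bitEncode (S, F, K S))) (fun F => hE _)
      (S.flatMap fun p => S.map fun q => (p, q)) []
    obtain ⟨F, f1, f2, f3⟩ := h3 (ext_nil.2 (hK' S).le)
    have h5 := h4 F f1 f3 f2
    have h6 := h2 List.nodup_nil
    beta_reduce
    generalize List.foldl _ _ _ = r at *
    have e : r.toFinset = F := by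
      ext s
      rw [List.mem_toFinset]
      refine ⟨f2 s, fun hs => h5 s ?_ hs⟩
      simp only [List.mem_flatMap, List.mem_map]
      exact ⟨s.1, (f1.1 s hs).1, s.2, (f1.1 s hs).2.1, rfl⟩
    refine ⟨h6, e ▸ f1, ?_⟩
    rw [← List.toFinset_card_of_nodup h6, e]
    exact le_antisymm (card_le_cf f1) (hK' S ▸ f3)

theorem collapse (A : List Pt → List (Pt × Pt)) (hA : PT A)
    (h : ∀ S, GeneralPosition S → (A S).length = cf S) : N68a2faeb.P = NP := by
  ext L
  constructor
  · intro hL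
    rw [mem_P_iff] at hL
    exact mem_NP_of (β := Str) (fun x _ => L x = true) id
      (PTP.of_bool (hL.comp (PT.fst PT.id))) PT.id 0
      (fun _ _ h => h) fun x hx => ⟨[], by simp, hx⟩
  · intro hL
    obtain ⟨f, hf, h'⟩ := hard hL
    rw [mem_P_iff]
    refine (show PT fun x => decide ((f x).2 ≤ (A (f x).1).length) by fun_prop).congr fun x => ?_
    rw [h _ (h' x).1, Bool.eq_iff_iff, (h' x).2, decide_eq_true_iff]

end Pool.Agent.P.MP_0d06a5_lc
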