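import Pool.Agent.P.MP_0d06a5_lc.Wire

/-! Orientation signs in the perturbed configuration. -/

namespace Pool.Agent.P.MP_0d06a5_lc

/-- Index of a label. -/
def idx (a : Bool × ℕ) : ℤ := ((2 * a.2 + a.1.toNat : ℕ) : ℤ)
/-- Number of labels. -/
def mm (R : List Rec) : ℤ := ((2 * TT R : ℕ) : ℤ)
/-- Scaling factor. -/
def NN (R : List Rec) : ℤ := 8 * (UU R * YY R) * (mm R * mm R) + mm R * mm R * mm R + 1
/-- The point with a given label. -/
def pt (R : List Rec) (a : Bool × ℕ) : Pt := pert (NN R) (base R a) (idx a)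
/-- The configuration. -/
def pts (R : List Rec) : List Pt :=
  (List.range (TT R)).flatMap fun t => [pt R (true, t), pt R (false, t)]
/-- The segment with both end points at time `t`. -/
def wire (R : List Rec) (t : ℕ) : Pt × Pt := (pt R (true, t), pt R (false, t))

variable {R : List Rec}

theorem mem_pts {p : Pt} : p ∈ pts R ↔ ∃ a : Bool × ℕ, a.2 < TT R ∧ pt R a = p := by
  simp only [pts, List.mem_flatMap, List.mem_range, List.mem_cons, List.not_mem_nil, or_false]
  constructor
  · rintro ⟨t, ht, rfl | rfl⟩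
    · exact ⟨(true, t), ht, rfl⟩
    · exact ⟨(false, t), ht, rfl⟩
  · rintro ⟨⟨_ | _, t⟩, ht, rfl⟩
    · exact ⟨t, ht, Or.inr rfl⟩
    · exact ⟨t, ht, Or.inl rfl⟩

theorem idx_bd {a : Bool × ℕ} (h : a.2 < TT R) : 0 ≤ idx a ∧ idx a < mm R := by
  have := Bool.toNat_le a.1
  unfold idx mm
  omega

theorem idx_inj {a b : Bool × ℕ} (h : idx a = idx b) : a = b := by
  obtain ⟨_ | _, s⟩ := a <;> obtain ⟨_ | _, t⟩ := b <;> simp [idx] at h ⊢ <;> omega

theorem hh_fin {a : Bool × ℕ} (h : isV R a.2) (ha : a.2 < TT R) : |hh R a| ≤ 4 * UU R := by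
  have h0 := UU_pos (R := R)
  obtain ⟨_ | _, t⟩ := a
  · have h1 := hm_le (own := 1) (e := (rc R (t / W R)).2.2.1) h ha
    have h2 := hm_ge (R := R) 1 (rc R (t / W R)).2.2.1 t
    simp only [hh, cond_false, abs_le] at *; constructor <;> linarith
  · have h1 := hm_le (own := 2) (e := (rc R (t / W R)).2.2.2) h ha
    have h2 := hm_ge (R := R) 2 (rc R (t / W R)).2.2.2 t
    simp only [hh, cond_true, abs_le] at *; constructor <;> linarith

theorem base_fin {a : Bool × ℕ} (h : isV R a.2) (ha : a.2 < TT R) :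
    |(base R a).1| ≤ 6 * UU R * UU R ∧ |(base R a).2| ≤ 4 * UU R := by
  refine ⟨?_, hh_fin h ha⟩
  have h0 := UU_pos (R := R)
  have h1 := pw_pos (R := R) a.2
  have h2 : pw R a.2 ≤ UU R := pw_le ha.le
  have h3 := abs_mul_le' (a := pw R a.2) (A := UU R) (by rwa [abs_of_pos h1]) (hh_fin h ha)
  have a1 := cm_bd (R := R) 1 a.2
  have a2 := cm_bd (R := R) 2 a.2
  have h4 : UU R * pw R a.2 ≤ UU R * UU R := by gcongr
  simp only [base, cc, abs_le] at *
  constructor <;> nlinarith [h3.1, h3.2]

theorem base_far {t : ℕ} (h : ¬ isV R t) :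
    base R (true, t) = (-(pw R t * YY R), YY R) ∧ base R (false, t) = (pw R t * YY R, -YY R) := by
  simp [base, cc, hh, hm_far h, cm_far h]

theorem base_bd {a : Bool × ℕ} (ha : a.2 < TT R) :
    |(base R a).1| ≤ UU R * YY R ∧ |(base R a).2| ≤ UU R * YY R := by
  have h0 := UU_pos (R := R)
  have h5 := four_le_YY (R := R)
  by_cases h : isV R a.2
  · have := base_fin h ha
    refine ⟨this.1.trans ?_, this.2.trans ?_⟩
    · unfold YY; nlinarith [mul_pos h0 h0]
    · nlinarith
  · have h1 := pw_pos (R := R) a.2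
    have h2 : pw R a.2 ≤ UU R := pw_le ha.le
    have h3 : pw R a.2 * YY R ≤ UU R * YY R := by gcongr; linarith
    have h4 : 0 < pw R a.2 * YY R := mul_pos h1 (by linarith)
    obtain ⟨_ | _, t⟩ := a
    · rw [(base_far h).2]; simp only [abs_le] at *; refine ⟨⟨?_, ?_⟩, ?_, ?_⟩ <;> nlinarith
    · rw [(base_far h).1]; simp only [abs_le] at *; refine ⟨⟨?_, ?_⟩, ?_, ?_⟩ <;> nlinarith

theorem ori_pt {a b c : Bool × ℕ} (ha : a.2 < TT R) (hb : b.2 < TT R) (hc : c.2 < TT R) :
    (0 < ori (base R a) (base R b) (base R c) → 0 < ori (pt R a) (pt R b) (pt R c)) ∧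
    (ori (base R a) (base R b) (base R c) < 0 → ori (pt R a) (pt R b) (pt R c) < 0) ∧
    (a ≠ b → a ≠ c → b ≠ c → ori (pt R a) (pt R b) (pt R c) ≠ 0) := by
  obtain ⟨o, h1, h2, h3⟩ := ori_pert (N := NN R) (base_bd ha).1 (base_bd ha).2 (base_bd hb).1
    (base_bd hb).2 (base_bd hc).1 (base_bd hc).2 (idx_bd ha).1 (idx_bd ha).2 (idx_bd hb).1
    (idx_bd hb).2 (idx_bd hc).1 (idx_bd hc).2
  have hN : 8 * (UU R * YY R) * (mm R * mm R) + mm R * mm R * mm R < NN R := by
    unfold NN; linarith
  unfold pt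
  rw [h3]
  refine ⟨dom_pos hN h1 h2, dom_neg hN h1 h2, fun e1 e2 e3 => dom_ne hN h1 h2 ?_⟩
  refine mul_ne_zero (mul_ne_zero ?_ ?_) ?_ <;> rw [sub_ne_zero]
  · exact fun h => e1 (idx_inj h).symm
  · exact fun h => e2 (idx_inj h).symm
  · exact fun h => e3 (idx_inj h).symm

theorem pt_inj {a b : Bool × ℕ} (ha : a.2 < TT R) (hb : b.2 < TT R) (h : pt R a = pt R b) :
    a = b := by
  refine idx_inj (pert_inj (m := mm R) ?_ (idx_bd ha).1 (idx_bd ha).2 (idx_bd hb).1 (idx_bd hb).2 h)
  have h0 := UU_pos (R := R)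
  have h5 := four_le_YY (R := R)
  have h1 : 1 ≤ mm R := by linarith [(idx_bd ha).1, (idx_bd ha).2]
  have h2 : 0 ≤ 8 * (UU R * YY R) * (mm R * mm R) := by
    have : 0 ≤ YY R := by linarith
    positivity
  unfold NN; nlinarith [mul_self_nonneg (mm R)]

theorem generalPosition_pts : GeneralPosition (pts R) := by
  constructor
  · rw [pts, List.nodup_flatMap]
    refine ⟨fun t ht => ?_, ?_⟩
    · have ht' := List.mem_range.1 ht
      have : pt R (true, t) ≠ pt R (false, t) := fun h => by simpa using pt_inj ht' ht' h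
      simp [this]
    · refine List.nodup_range.pairwise_of_forall_ne fun s hs t ht hst => ?_
      have hs' := List.mem_range.1 hs
      have ht' := List.mem_range.1 ht
      have : ∀ e e', pt R (e, s) ≠ pt R (e', t) := fun e e' h =>
        hst (congrArg Prod.snd (pt_inj hs' ht' h))
      simp [Function.onFun, List.disjoint_left, this]
  · intro p hp q hq r hr h1 h2 h3
    obtain ⟨a, ha, rfl⟩ := mem_pts.1 hp
    obtain ⟨b, hb, rfl⟩ := mem_pts.1 hq
    obtain ⟨c, hc, rfl⟩ := mem_pts.1 hr
    exact not_collinear ((ori_pt ha hb hc).2.2 (fun h => h1 (by rw [h])) (fun h => h2 (by rw [h]))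
      (fun h => h3 (by rw [h])))

/-- Position of the point `a` relative to the line of time `u`. -/
def side (R : List Rec) (u : ℕ) (a : Bool × ℕ) : ℤ :=
  cc R a.2 - cc R u - (pw R a.2 - pw R u) * hh R a

theorem side_sign {u : ℕ} {a : Bool × ℕ} (hu : u < TT R) (ha : a.2 < TT R) :
    (0 < side R u a → 0 < ori (pt R (true, u)) (pt R (false, u)) (pt R a)) ∧
    (side R u a < 0 → ori (pt R (true, u)) (pt R (false, u)) (pt R a) < 0) := by
  have e : ori (base R (true, u)) (base R (false, u)) (base R a) =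
      (hh R (true, u) - hh R (false, u)) * side R u a := by
    simp only [ori, base, side]; ring
  have h : 0 < hh R (true, u) - hh R (false, u) := by
    have h0 := UU_pos (R := R)
    have h1 := hm_ge (R := R) 1 (rc R (u / W R)).2.2.1 u
    have h2 := hm_ge (R := R) 2 (rc R (u / W R)).2.2.2 u
    simp only [hh, cond_true, cond_false]; linarith
  have := ori_pt (R := R) (a := (true, u)) (b := (false, u)) hu hu ha
  rw [e] at this
  exact ⟨fun h' => this.1 (mul_pos h h'), fun h' => this.2.1 (mul_neg_of_pos_of_neg h h')⟩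

theorem late_up {s t : ℕ} (hst : s < t) (ht : t < TT R) : side R s (true, t) < 0 := by
  have := late (R := R) (own := 2) (oth := 1) (rc R (t / W R)).2.2.2 hst ht
  simp only [side, cc, hh, cond_true]; linarith

theorem late_dn {s t : ℕ} (hst : s < t) (ht : t < TT R) : 0 < side R s (false, t) := by
  have := late (R := R) (own := 1) (oth := 2) (rc R (t / W R)).2.2.1 hst ht
  simp only [side, cc, hh, cond_false]; linarith

theorem early_up {s t : ℕ} (hst : s < t) (ht : t < TT R)
    (h : ¬ (isV R s ∧ isV R t ∧ (rc R (t / W R)).1 = 2 ∧ (rc R (s / W R)).1 ≠ 2 ∧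
      (rc R (t / W R)).2.1 ≤ s / W R ∧ t / W R < (rc R (s / W R)).2.2.2)) :
    0 < side R t (true, s) := by
  have := early_ok (R := R) (own := 2) (oth := 1) (by norm_num) hst ht h
  simp only [side, cc, hh, cond_true]; linarith

theorem early_dn {s t : ℕ} (hst : s < t) (ht : t < TT R)
    (h : ¬ (isV R s ∧ isV R t ∧ (rc R (t / W R)).1 = 1 ∧ (rc R (s / W R)).1 ≠ 1 ∧
      (rc R (t / W R)).2.1 ≤ s / W R ∧ t / W R < (rc R (s / W R)).2.2.1)) :
    side R t (false, s) < 0 := by
  have := early_ok (R := R) (own := 1) (oth := 2) (by norm_num) hst ht h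
  simp only [side, cc, hh, cond_false]; linarith

theorem X_wire {s t : ℕ} (hst : s < t) (ht : t < TT R)
    (h : ¬ (isV R s ∧ isV R t ∧ Adj R (s / W R) (t / W R))) : X (wire R s) (wire R t) := by
  have hs := hst.trans ht
  refine ⟨mul_neg_of_neg_of_pos ((side_sign hs ht).2 (late_up hst ht))
    ((side_sign hs ht).1 (late_dn hst ht)),
    mul_neg_of_pos_of_neg ((side_sign ht hs).1 (early_up hst ht ?_))
    ((side_sign ht hs).2 (early_dn hst ht ?_))⟩
  · exact fun h' => h ⟨h'.1, h'.2.1, Or.inr h'.2.2⟩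
  · exact fun h' => h ⟨h'.1, h'.2.1, Or.inl h'.2.2⟩

theorem not_X_wire {s t : ℕ} (hst : s < t) (ht : t < TT R) (h1 : isV R s) (h2 : isV R t)
    (h : Adj R (s / W R) (t / W R)) :
    0 < ori (pt R (true, t)) (pt R (false, t)) (pt R (true, s)) *
      ori (pt R (true, t)) (pt R (false, t)) (pt R (false, s)) := by
  have hs := hst.trans ht
  rcases h with h | h
  · refine mul_pos ((side_sign ht hs).1 (early_up hst ht fun h' => ?_)) ((side_sign ht hs).1 ?_)
    · have := h'.2.2.1; have := h.1; omega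
    · have := early_bad (R := R) (own := 1) (oth := 2) (by norm_num) hst ht ⟨h1, h2, h⟩
      simp only [side, cc, hh, cond_false]; linarith
  · refine mul_pos_of_neg_of_neg ((side_sign ht hs).2 ?_)
      ((side_sign ht hs).2 (early_dn hst ht fun h' => ?_))
    · have := early_bad (R := R) (own := 2) (oth := 1) (by norm_num) hst ht ⟨h1, h2, h⟩
      simp only [side, cc, hh, cond_true]; linarith
    · have := h'.2.2.1; have := h.1; omega

theorem sep_pos {u : ℕ} {a : Bool × ℕ} (hu : u < TT R) (hf : ¬ isV R u) (ha : a.2 < TT R)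
    (hne : a.2 ≠ u) (h : a.1 = true ↔ a.2 < u) :
    0 < ori (pt R (true, u)) (pt R (false, u)) (pt R a) := by
  refine (side_sign hu ha).1 ?_
  obtain ⟨_ | _, t⟩ := a
  · exact late_dn (by simp at h hne; omega) ha
  · exact early_up (by simpa using h) hu fun h' => hf h'.2.1

theorem sep_neg {u : ℕ} {a : Bool × ℕ} (hu : u < TT R) (hf : ¬ isV R u) (ha : a.2 < TT R)
    (hne : a.2 ≠ u) (h : ¬ (a.1 = true ↔ a.2 < u)) :
    ori (pt R (true, u)) (pt R (false, u)) (pt R a) < 0 := by
  refine (side_sign hu ha).2 ?_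
  obtain ⟨_ | _, t⟩ := a
  · exact early_dn (by simpa using h) hu fun h' => hf h'.2.1
  · exact late_up (by simp at h hne; omega) ha

theorem far_same {u v : ℕ} (huv : u < v) (hv : v < TT R) (hu' : ¬ isV R u) (hv' : ¬ isV R v)
    (e : Bool) {c : Bool × ℕ} (hc : c.2 < TT R) (h : ori (pt R (e, u)) (pt R (e, v)) (pt R c) < 0) :
    ¬ isV R c.2 ∧ c.1 = e := by
  by_contra hn
  refine lt_asymm h ((ori_pt (a := (e, u)) (b := (e, v)) (huv.trans hv) hv hc).1 ?_)
  have h0 := UU_pos (R := R)
  have h5 : 4 * UU R < YY R := by unfold YY; nlinarith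
  have h1 := pw_lt huv hv.le
  have h2 := pw_pos (R := R) u
  have h3 : 0 < (pw R v - pw R u) * YY R := mul_pos (by linarith) (by linarith)
  have h4 : |(base R c).2| < YY R ∨ (base R c).2 = -(base R (e, u)).2 := by
    by_cases hcv : isV R c.2
    · exact Or.inl ((base_fin hcv hc).2.trans_lt h5)
    · right
      obtain ⟨_ | _, t⟩ := c <;> cases e <;> simp [hcv, base_far hcv, base_far hu'] at hn ⊢
  rw [abs_lt] at h4
  cases e
  · simp only [ori, base_far hu', base_far hv'] at h4 ⊢
    rcases h4 with h4 | h4 <;> nlinarith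
  · simp only [ori, base_far hu', base_far hv'] at h4 ⊢
    rcases h4 with h4 | h4 <;> nlinarith

theorem far_skew {u v : ℕ} (huv : u < v) (hv : v < TT R) (hu' : ¬ isV R u) (hv' : ¬ isV R v)
    (e : Bool) {c : Bool × ℕ} (hc : c.2 < TT R)
    (h : 0 < ori (pt R (e, u)) (pt R (!e, v)) (pt R c)) :
    ¬ isV R c.2 ∧ ((c.1 = e ∧ c.2 < u) ∨ (c.1 = !e ∧ v < c.2)) := by
  by_contra hn
  have n1 : c ≠ (e, u) := by rintro rfl; simp [ori] at h
  have n2 : c ≠ (!e, v) := by rintro rfl; simp [ori, mul_comm] at h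
  refine lt_asymm h ((ori_pt (a := (e, u)) (b := (!e, v)) (huv.trans hv) hv hc).2.1 ?_)
  have h0 := UU_pos (R := R)
  have h5 : 0 < YY R := by unfold YY; positivity
  have h1 := pw_lt huv hv.le
  have h2 := pw_pos (R := R) u
  have h3 : pw R v ≤ UU R := pw_le hv.le
  by_cases hcv : isV R c.2
  · obtain ⟨b1, b2⟩ := base_fin hcv hc
    have b3 := abs_mul_le' (a := pw R u + pw R v) (A := 2 * UU R)
      (by rw [abs_of_pos (by linarith)]; linarith) b2
    have b4 : YY R * 1 ≤ YY R * (pw R v - pw R u) := by gcongr; linarith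
    have b5 : YY R = 21 * UU R * UU R := rfl
    have b6 := mul_pos h0 h0
    rw [abs_le] at b1 b3
    cases e
    · have : ori (base R (false, u)) (base R (true, v)) (base R c) = YY R *
          (-((pw R u + pw R v) * (base R c).2) - 2 * (base R c).1 - YY R * (pw R v - pw R u)) := by
        simp only [ori, base_far hu', base_far hv']; ring
      rw [Bool.not_false, this]
      exact mul_neg_of_pos_of_neg h5 (by linarith [b1.1, b3.1])
    · have : ori (base R (true, u)) (base R (false, v)) (base R c) = YY R *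
          ((pw R u + pw R v) * (base R c).2 + 2 * (base R c).1 - YY R * (pw R v - pw R u)) := by
        simp only [ori, base_far hu', base_far hv']; ring
      rw [Bool.not_true, this]
      exact mul_neg_of_pos_of_neg h5 (by linarith [b1.2, b3.2])
  · obtain ⟨e', t⟩ := c
    have h6 := mul_pos h5 h5
    have h7 := pw_pos (R := R) t
    by_cases he : e' = e
    · subst he
      have : u < t := by simp [hcv] at hn n1; omega
      have := pw_lt this hc.le
      cases e' <;> simp only [ori, base_far hu', base_far hv', base_far hcv, Bool.not_true,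
        Bool.not_false] <;> nlinarith
    · obtain rfl : e' = !e := by cases e <;> cases e' <;> simp at he ⊢
      have : t < v := by simp [hcv] at hn n2; omega
      have := pw_lt this hv.le
      cases e <;> simp only [ori, base_far hu', base_far hv', base_far hcv, Bool.not_true,
        Bool.not_false] <;> nlinarith

end Pool.Agent.P.MP_0d06a5_lc
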