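import Pool.Agent.P.MP_0d06a5_lc.Signs

/-! The largest crossing family of the configuration versus independent sets of records. -/

namespace Pool.Agent.P.MP_0d06a5_lc

open Finset

theorem ori_swap (p q r : Pt) : ori q p r = -ori p q r := by simp only [ori]; ring

theorem four {p q p' q' : Pt} (h1 : ori p p' q * ori p p' q' < 0)
    (h2 : ori p q p' * ori p q q' < 0) (h3 : ori p' q' p * ori p' q' q < 0) : False := by
  have e1 : ori p q p' = -ori p p' q := by simp only [ori]; ring
  have e2 : ori p' q' p = ori p p' q' := by simp only [ori]; ring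
  have e3 : ori p' q' q = ori p p' q' - ori p p' q - ori p q q' := by simp only [ori]; ring
  rw [e1] at h2
  rw [e2, e3] at h3
  generalize ori p p' q = A at *
  generalize ori p p' q' = B at *
  generalize ori p q q' = C at *
  rcases lt_trichotomy A 0 with h | h | h
  · have : 0 < B := by nlinarith
    have : C < 0 := by nlinarith
    nlinarith
  · simp [h] at h1
  · have : B < 0 := by nlinarith
    have : 0 < C := by nlinarith
    nlinarith

/-- Labels. -/
abbrev Lb := Bool × ℕ

/-- `g` has the end points `a` and `b`. -/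
def Has (g : Lb × Lb) (a b : Lb) : Prop := g = (a, b) ∨ g = (b, a)

theorem Has.symm {g : Lb × Lb} {a b : Lb} (h : Has g a b) : Has g b a := Or.symm h

theorem has_self (g : Lb × Lb) : Has g g.1 g.2 := Or.inl rfl

/-- Times that are not record times. -/
def Fr (R : List Rec) : Finset ℕ := (range (TT R)).filter fun t => ¬ isV R t

/-- Number of such times. -/
def LL (R : List Rec) : ℕ := TT R - R.length

variable {R : List Rec}

theorem filter_isV : (range (TT R)).filter (isV R) = (range R.length).image (vt R) := by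
  ext t
  simp only [mem_filter, mem_range, mem_image]
  constructor
  · exact fun h => ⟨_, div_lt_of_isV h.2 h.1, vt_of_isV h.2⟩
  · rintro ⟨k, hk, rfl⟩
    exact ⟨vt_lt.2 hk, isV_vt k⟩

theorem vt_inj : Function.Injective (vt R) := fun i j h => by
  rw [← vt_div (R := R) i, h, vt_div]

theorem card_isV : ((range (TT R)).filter (isV R)).card = R.length := by
  rw [filter_isV, card_image_of_injective _ vt_inj, card_range]

theorem card_Fr : (Fr R).card = LL R := by
  have := card_filter_add_card_filter_not (s := range (TT R)) (isV R)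
  rw [card_isV, card_range] at this
  unfold LL Fr; omega

theorem mem_Fr {t : ℕ} : t ∈ Fr R ↔ t < TT R ∧ ¬ isV R t := by simp [Fr]

theorem block_mem {k j : ℕ} (hk : k ≤ R.length) (hj : j < 2 * R.length + 1) :
    k * W R + j ∈ Fr R := by
  rw [mem_Fr]
  constructor
  · have : vt R k ≤ TT R := vt_le.2 hk
    unfold vt at this; omega
  · unfold isV
    rw [mul_comm, Nat.mul_add_mod, Nat.mod_eq_of_lt (by unfold W; omega)]
    omega

/-- A crossing family of labelled segments. -/
structure Fam (R : List Rec) (G : Finset (Lb × Lb)) : Prop where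
  valid : ∀ g ∈ G, g.1.2 < TT R ∧ g.2.2 < TT R ∧ g.1 ≠ g.2
  cross : ∀ g ∈ G, ∀ g' ∈ G, g ≠ g' → X (pt R g.1, pt R g.2) (pt R g'.1, pt R g'.2)

/-- The segment of the non-record time `u` belongs to the family. -/
def Sep (R : List Rec) (G : Finset (Lb × Lb)) (u : ℕ) : Prop :=
  u ∈ Fr R ∧ ∃ g ∈ G, Has g (true, u) (false, u)

theorem card_le_of_end {β : Type} (G : Finset (Lb × Lb)) (B : Finset β) (φ : Lb → β)
    (P : Lb → Lb → Prop) (h1 : ∀ g ∈ G, ∃ a b, Has g a b ∧ P a b ∧ φ a ∈ B)
    (h2 : ∀ g ∈ G, ∀ g' ∈ G, g ≠ g' → ∀ a b c d, Has g a b → Has g' c d → P a b → P c d →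
      φ a ≠ φ c) : G.card ≤ B.card := by
  classical
  choose! a b hab using h1
  refine card_le_card_of_injOn (fun g => φ (a g)) (fun g hg => (hab g hg).2.2) fun g hg g' hg' e => ?_
  by_contra hne
  exact h2 g hg g' hg' hne _ _ _ _ (hab g hg).1 (hab g' hg').1 (hab g hg).2.1 (hab g' hg').2.1 e

theorem has_anti {g : Lb × Lb} {a b : Lb} (h : Has g a b) (h1 : a ≠ b) (h2 : a.2 = b.2) :
    Has g (true, a.2) (false, a.2) := by
  obtain ⟨e, s⟩ := a
  obtain ⟨e', t⟩ := b
  obtain rfl : s = t := h2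
  cases e <;> cases e'
  · simp at h1
  · exact h.symm
  · exact h
  · simp at h1

namespace Fam

variable {G : Finset (Lb × Lb)} (hG : Fam R G)
include hG

theorem val {g : Lb × Lb} (hg : g ∈ G) {a b : Lb} (h : Has g a b) :
    a.2 < TT R ∧ b.2 < TT R ∧ a ≠ b := by
  have := hG.valid g hg
  rcases h with rfl | rfl
  · exact this
  · exact ⟨this.2.1, this.1, this.2.2.symm⟩

theorem xl {g g' : Lb × Lb} (hg : g ∈ G) (hg' : g' ∈ G) (hne : g ≠ g') {a b c d : Lb}
    (h : Has g a b) (h' : Has g' c d) :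
    ori (pt R a) (pt R b) (pt R c) * ori (pt R a) (pt R b) (pt R d) < 0 := by
  have := (hG.cross g hg g' hg' hne).1
  rcases h with rfl | rfl <;> rcases h' with rfl | rfl <;> simp only at this
  · exact this
  · rwa [mul_comm]
  · rwa [ori_swap, ori_swap (pt R a), neg_mul_neg] at this
  · rwa [ori_swap, ori_swap (pt R a), neg_mul_neg, mul_comm] at this

theorem disj {g g' : Lb × Lb} (hg : g ∈ G) (hg' : g' ∈ G) (hne : g ≠ g') {a b c d : Lb}
    (h : Has g a b) (h' : Has g' c d) : a ≠ c := by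
  rintro rfl
  simpa [ori] using hG.xl hg hg' hne h h'

theorem ends {g g' : Lb × Lb} (hg : g ∈ G) (hg' : g' ∈ G) (hne : g ≠ g') {a b : Lb}
    (h : Has g a b) : (∃ c d, Has g' c d ∧ c.2 < TT R ∧ 0 < ori (pt R a) (pt R b) (pt R c)) ∧
      ∃ c d, Has g' c d ∧ c.2 < TT R ∧ ori (pt R a) (pt R b) (pt R c) < 0 := by
  have hv := hG.valid g' hg'
  rcases mul_neg_iff.1 (hG.xl hg hg' hne h (has_self g')) with h1 | h1
  · exact ⟨⟨_, _, has_self g', hv.1, h1.1⟩, _, _, (has_self g').symm, hv.2.1, h1.2⟩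
  · exact ⟨⟨_, _, (has_self g').symm, hv.2.1, h1.2⟩, _, _, has_self g', hv.1, h1.1⟩

theorem anti' (hL : LL R < G.card) {g : Lb × Lb} (hg : g ∈ G) {a b : Lb} (h : Has g a b)
    (ha : ¬ isV R a.2) (hb : ¬ isV R b.2) : ¬ a.2 < b.2 := by
  intro hlt
  obtain ⟨e, u⟩ := a
  obtain ⟨e', v⟩ := b
  obtain ⟨hu, hv, -⟩ := hG.val hg h
  simp only at ha hb hlt hu hv
  have hm : u ∈ Fr R := mem_Fr.2 ⟨hu, ha⟩
  have key : (G.erase g).card ≤ ((Fr R).erase u).card := by
    by_cases he : e' = e
    · subst he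
      refine card_le_of_end _ _ Prod.snd
        (fun c _ => c.2 < TT R ∧ ori (pt R (e', u)) (pt R (e', v)) (pt R c) < 0) ?_ ?_
      · intro g' hg'
        rw [mem_erase] at hg'
        obtain ⟨c, d, h1, h2, h3⟩ := (hG.ends hg hg'.2 hg'.1.symm h).2
        have h4 := far_same hlt hv ha hb e' h2 h3
        refine ⟨c, d, h1, ⟨h2, h3⟩, mem_erase.2 ⟨fun h5 => ?_, mem_Fr.2 ⟨h2, h4.1⟩⟩⟩
        exact hG.disj hg hg'.2 hg'.1.symm h h1 (Prod.ext h4.2.symm h5.symm)
      · intro g1 hg1 g2 hg2 hne a b c d h1 h2 p1 p2 e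
        refine hG.disj (mem_of_mem_erase hg1) (mem_of_mem_erase hg2) hne h1 h2 (Prod.ext ?_ e)
        rw [(far_same hlt hv ha hb e' p1.1 p1.2).2, (far_same hlt hv ha hb e' p2.1 p2.2).2]
    · obtain rfl : e' = !e := by cases e <;> cases e' <;> simp at he ⊢
      refine card_le_of_end _ _ Prod.snd
        (fun c _ => c.2 < TT R ∧ 0 < ori (pt R (e, u)) (pt R (!e, v)) (pt R c)) ?_ ?_
      · intro g' hg'
        rw [mem_erase] at hg'
        obtain ⟨c, d, h1, h2, h3⟩ := (hG.ends hg hg'.2 hg'.1.symm h).1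
        have h4 := far_skew hlt hv ha hb e h2 h3
        exact ⟨c, d, h1, ⟨h2, h3⟩, mem_erase.2 ⟨by omega, mem_Fr.2 ⟨h2, h4.1⟩⟩⟩
      · intro g1 hg1 g2 hg2 hne a b c d h1 h2 p1 p2 e'
        refine hG.disj (mem_of_mem_erase hg1) (mem_of_mem_erase hg2) hne h1 h2 (Prod.ext ?_ e')
        rcases (far_skew hlt hv ha hb e p1.1 p1.2).2 with q1 | q1 <;>
          rcases (far_skew hlt hv ha hb e p2.1 p2.2).2 with q2 | q2
        · rw [q1.1, q2.1]
        · omega
        · omega
        · rw [q1.1, q2.1]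
  rw [card_erase_of_mem hg, card_erase_of_mem hm, card_Fr] at key
  have := card_pos.2 ⟨u, hm⟩
  rw [card_Fr] at this
  omega

theorem anti (hL : LL R < G.card) {g : Lb × Lb} (hg : g ∈ G) {a b : Lb} (h : Has g a b)
    (ha : ¬ isV R a.2) (hb : ¬ isV R b.2) : a.2 = b.2 := by
  have h1 := hG.anti' hL hg h ha hb
  have h2 := hG.anti' hL hg h.symm hb ha
  omega

theorem exists_sep (hL : LL R < G.card) {k : ℕ} (hk : k ≤ R.length) :
    ∃ j < 2 * R.length + 1, Sep R G (k * W R + j) := by
  by_contra hn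
  push Not at hn
  have h1 : (G.filter fun g => ¬ isV R g.1.2 ∧ ¬ isV R g.2.2).card ≤
      (Fr R \ (range (2 * R.length + 1)).image fun j => k * W R + j).card := by
    refine card_le_of_end _ _ Prod.snd (fun a _ => a.1 = true) ?_ ?_
    · intro g hg
      rw [mem_filter] at hg
      have hv := hG.valid g hg.1
      have h2 := has_anti (has_self g) hv.2.2 (hG.anti hL hg.1 (has_self g) hg.2.1 hg.2.2)
      have hm : g.1.2 ∈ Fr R := mem_Fr.2 ⟨hv.1, hg.2.1⟩
      refine ⟨_, _, h2, rfl, mem_sdiff.2 ⟨hm, fun h3 => ?_⟩⟩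
      obtain ⟨j, hj, e⟩ := mem_image.1 h3
      simp only at e
      exact hn j (mem_range.1 hj) (by rw [e]; exact ⟨hm, g, hg.1, h2⟩)
    · intro g1 hg1 g2 hg2 hne a b c d h1 h2 p1 p2 e
      exact hG.disj (mem_filter.1 hg1).1 (mem_filter.1 hg2).1 hne h1 h2
        (Prod.ext (p1.trans p2.symm) e)
  have h2 : (G.filter fun g => ¬ (¬ isV R g.1.2 ∧ ¬ isV R g.2.2)).card ≤
      ((univ : Finset Bool) ×ˢ (range (TT R)).filter (isV R)).card := by
    refine card_le_of_end _ _ id (fun _ _ => True) ?_ ?_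
    · intro g hg
      rw [mem_filter] at hg
      have hv := hG.valid g hg.1
      by_cases h : isV R g.1.2
      · exact ⟨_, _, has_self g, trivial, by simp [h, hv.1]⟩
      · have h' : isV R g.2.2 := by tauto
        exact ⟨_, _, (has_self g).symm, trivial, by simp [h', hv.2.1]⟩
    · intro g1 hg1 g2 hg2 hne a b c d h1 h2 _ _
      exact hG.disj (mem_filter.1 hg1).1 (mem_filter.1 hg2).1 hne h1 h2
  have h3 := card_filter_add_card_filter_not (s := G) fun g => ¬ isV R g.1.2 ∧ ¬ isV R g.2.2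
  have hsub : ((range (2 * R.length + 1)).image fun j => k * W R + j) ⊆ Fr R := by
    intro t ht
    obtain ⟨j, hj, rfl⟩ := mem_image.1 ht
    exact block_mem hk (mem_range.1 hj)
  have h4 := card_le_card hsub
  rw [card_sdiff_of_subset hsub] at h1
  rw [card_image_of_injective _ (fun a b h => by simpa using h), card_range, card_Fr] at h1 h4
  rw [card_product, card_isV] at h2
  simp at h2 h3
  omega

theorem near (hL : LL R < G.card) {g : Lb × Lb} (hg : g ∈ G) {a b : Lb} (h : Has g a b)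
    (ha : isV R a.2) : a.1 ≠ b.1 ∧ ∀ u, Sep R G u → (a.2 < u ↔ b.2 < u) := by
  obtain ⟨va, vb, -⟩ := hG.val hg h
  have key : ∀ u, Sep R G u → ¬ ((a.1 = true ↔ a.2 < u) ↔ (b.1 = true ↔ b.2 < u)) := by
    rintro u ⟨hu, g', hg', h'⟩ hiff
    rw [mem_Fr] at hu
    have n1 : a.2 ≠ u := fun e => hu.2 (e ▸ ha)
    have hne : g' ≠ g := by
      rintro rfl
      rcases h with h | h <;> rcases h' with h' | h' <;> rw [h] at h' <;>
        simp only [Prod.ext_iff] at h' <;> omega
    have hx := hG.xl hg' hg hne h' h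
    have n2 : b.2 ≠ u := by
      rintro rfl
      obtain ⟨_ | _, t⟩ := b
      · exact hG.disj hg' hg hne h'.symm h.symm rfl
      · exact hG.disj hg' hg hne h' h.symm rfl
    by_cases h1 : a.1 = true ↔ a.2 < u
    · exact lt_asymm hx (mul_pos (sep_pos hu.1 hu.2 va n1 h1) (sep_pos hu.1 hu.2 vb n2 (hiff.1 h1)))
    · exact lt_asymm hx (mul_pos_of_neg_of_neg (sep_neg hu.1 hu.2 va n1 h1)
        (sep_neg hu.1 hu.2 vb n2 fun h2 => h1 (hiff.2 h2)))
  have hk := div_lt_of_isV ha va
  obtain ⟨j, hj, s1⟩ := hG.exists_sep hL hk.le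
  obtain ⟨j', -, s2⟩ := hG.exists_sep hL (k := a.2 / W R + 1) hk
  have e := vt_of_isV ha
  have k1 := key _ s1
  have k2 := key _ s2
  have hW : W R = 2 * R.length + 2 := rfl
  unfold vt at e
  rw [add_mul] at k2
  have hne : a.1 ≠ b.1 := by
    intro e'
    rw [e'] at k1 k2
    cases b.1 <;> simp at k1 k2 <;> omega
  refine ⟨hne, fun u hu => ?_⟩
  have := key u hu
  revert hne this
  cases a.1 <;> cases b.1 <;> simp <;> omega

theorem near_eq (hL : LL R < G.card) {s t : ℕ} (hs : isV R s) (ht : isV R t) (hs' : s < TT R)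
    (ht' : t < TT R) (h : ∀ u, Sep R G u → (s < u ↔ t < u)) : s = t := by
  have key : ∀ {s t : ℕ}, isV R s → isV R t → s < TT R → (∀ u, Sep R G u → (s < u ↔ t < u)) →
      ¬ s < t := by
    intro s t hs ht hs' h hlt
    obtain ⟨j, hj, s1⟩ := hG.exists_sep hL (k := s / W R + 1) (div_lt_of_isV hs hs')
    have c1 : s / W R < t / W R := by rw [← vt_lt (R := R), vt_of_isV hs, vt_of_isV ht]; exact hlt
    have c2 : vt R (s / W R + 1) ≤ vt R (t / W R) := vt_le.2 c1
    have e := vt_of_isV hs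
    have := h _ s1
    rw [vt_of_isV ht] at c2
    have hW : W R = 2 * R.length + 2 := rfl
    unfold vt at e c2
    rw [add_mul] at this c2
    omega
  have h1 := key hs ht hs' h
  have h2 := key ht hs ht' fun u hu => (h u hu).symm
  omega

theorem upper (hL : LL R < G.card) : ∃ I : Finset ℕ, (∀ i ∈ I, i < R.length) ∧
    (∀ i ∈ I, ∀ j ∈ I, i < j → ¬ Adj R i j) ∧ G.card ≤ LL R + I.card := by
  classical
  refine ⟨(range R.length).filter fun k => ∃ g ∈ G, Has g (true, vt R k) (false, vt R k),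
    fun i hi => mem_range.1 (mem_filter.1 hi).1, fun i hi j hj hij hadj => ?_, ?_⟩
  · obtain ⟨-, g, hg, h⟩ := mem_filter.1 hi
    obtain ⟨hj', g', hg', h'⟩ := mem_filter.1 hj
    have hlt : vt R i < vt R j := vt_lt.2 hij
    have hne : g' ≠ g := by
      rintro rfl
      rcases h with h | h <;> rcases h' with h' | h' <;> rw [h] at h' <;>
        simp only [Prod.ext_iff] at h' <;> omega
    refine lt_asymm (hG.xl hg' hg hne h' h) (not_X_wire hlt (vt_lt.2 (mem_range.1 hj'))
      (isV_vt i) (isV_vt j) ?_)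
    rwa [vt_div, vt_div]
  have h1 : (G.filter fun g => isV R g.1.2 ∧ isV R g.2.2).card ≤ ((range R.length).filter
      fun k => ∃ g ∈ G, Has g (true, vt R k) (false, vt R k)).card := by
    refine card_le_of_end _ _ (fun a => a.2 / W R) (fun a _ => a.1 = true ∧ isV R a.2) ?_ ?_
    · intro g hg
      rw [mem_filter] at hg
      have hv := hG.valid g hg.1
      have h2 := has_anti (has_self g) hv.2.2 (hG.near_eq hL hg.2.1 hg.2.2 hv.1 hv.2.1
        (hG.near hL hg.1 (has_self g) hg.2.1).2)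
      refine ⟨_, _, h2, ⟨rfl, hg.2.1⟩, mem_filter.2 ⟨mem_range.2 (div_lt_of_isV hg.2.1 hv.1),
        g, hg.1, ?_⟩⟩
      rwa [vt_of_isV hg.2.1]
    · intro g1 hg1 g2 hg2 hne a b c d h1 h2 p1 p2 e
      refine hG.disj (mem_filter.1 hg1).1 (mem_filter.1 hg2).1 hne h1 h2
        (Prod.ext (p1.1.trans p2.1.symm) ?_)
      rw [← vt_of_isV p1.2, ← vt_of_isV p2.2]
      exact congrArg _ e
  have h2 : (G.filter fun g => ¬ (isV R g.1.2 ∧ isV R g.2.2)).card ≤ (Fr R).card := by
    refine card_le_of_end _ _ Prod.snd (fun a _ => ¬ isV R a.2) ?_ ?_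
    · intro g hg
      rw [mem_filter] at hg
      have hv := hG.valid g hg.1
      by_cases h : isV R g.1.2
      · have h' : ¬ isV R g.2.2 := by tauto
        exact ⟨_, _, (has_self g).symm, h', mem_Fr.2 ⟨hv.2.1, h'⟩⟩
      · exact ⟨_, _, has_self g, h, mem_Fr.2 ⟨hv.1, h⟩⟩
    · intro g hg g' hg' hne a b c d h h' pa pc e
      replace hg := (mem_filter.1 hg).1
      replace hg' := (mem_filter.1 hg').1
      obtain ⟨va, vb, nab⟩ := hG.val hg h
      obtain ⟨vc, vd, ncd⟩ := hG.val hg' h'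
      have nac := hG.disj hg hg' hne h h'
      have nbc := hG.disj hg hg' hne h.symm h'
      have nad := hG.disj hg hg' hne h h'.symm
      obtain ⟨ea, u⟩ := a
      obtain ⟨ec, u'⟩ := c
      obtain rfl : u = u' := e
      obtain ⟨eb, s⟩ := b
      obtain ⟨ed, t⟩ := d
      have hb : isV R s := by
        by_contra hb
        obtain rfl : u = s := hG.anti hL hg h pa hb
        cases ea <;> cases eb <;> cases ec <;> simp at nab nac nbc
      have hd : isV R t := by
        by_contra hd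
        obtain rfl : u = t := hG.anti hL hg' h' pc hd
        cases ea <;> cases ed <;> cases ec <;> simp at ncd nac nad
      obtain ⟨n1, n2⟩ := hG.near hL hg h.symm hb
      obtain ⟨n3, n4⟩ := hG.near hL hg' h'.symm hd
      obtain rfl : s = t := hG.near_eq hL hb hd vb vd fun w hw => (n2 w hw).trans (n4 w hw).symm
      have nsu : s ≠ u := fun e => pa (e ▸ hb)
      have hs : ori (pt R (true, u)) (pt R (false, u)) (pt R (true, s)) *
          ori (pt R (true, u)) (pt R (false, u)) (pt R (false, s)) < 0 := by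
        by_cases hlt : s < u
        · exact mul_neg_of_pos_of_neg (sep_pos va pa vb nsu (by simpa using hlt))
            (sep_neg va pa vb nsu (by simpa using hlt))
        · exact mul_neg_of_neg_of_pos (sep_neg va pa vb nsu (by simpa using hlt))
            (sep_pos va pa vb nsu (by simpa using hlt))
      refine four ?_ (hG.xl hg hg' hne h h') (hG.xl hg' hg hne.symm h' h)
      simp only at n1 n3
      cases ea <;> cases ec <;> cases eb <;> cases ed <;> simp at nac n1 n3
      · rwa [ori_swap, ori_swap (pt R (true, u)), neg_mul_neg]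
      · rwa [mul_comm]
  have h3 := card_filter_add_card_filter_not (s := G) fun g => isV R g.1.2 ∧ isV R g.2.2
  rw [card_Fr] at h2
  omega

end Fam

theorem geo (R : List Rec) (k : ℕ) : LL R + k ≤ cf (pts R) ↔ ∃ I : Finset ℕ,
    (∀ i ∈ I, i < R.length) ∧ (∀ i ∈ I, ∀ j ∈ I, i < j → ¬ Adj R i j) ∧ k ≤ I.card := by
  rw [le_cf_iff]
  constructor
  · rintro ⟨F, hF, hc⟩
    rcases Nat.eq_zero_or_pos k with rfl | hk
    · exact ⟨∅, by simp⟩
    rw [family_iff] at hF
    let Λ : Finset Lb := univ ×ˢ range (TT R)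
    let G := (Λ ×ˢ Λ).filter fun g => (pt R g.1, pt R g.2) ∈ F
    have hm : ∀ g, g ∈ G ↔ g.1.2 < TT R ∧ g.2.2 < TT R ∧ (pt R g.1, pt R g.2) ∈ F := by
      intro g; simp [G, Λ, and_assoc]
    have hG : Fam R G := by
      constructor
      · intro g hg
        rw [hm] at hg
        exact ⟨hg.1, hg.2.1, fun e => (hF.1 _ hg.2.2).2.2 (by simp only [e])⟩
      · intro g hg g' hg' hne
        rw [hm] at hg hg'
        refine hF.2 _ hg.2.2 _ hg'.2.2 fun e => hne ?_
        rw [Prod.mk.injEq] at e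
        exact Prod.ext (pt_inj hg.1 hg'.1 e.1) (pt_inj hg.2.1 hg'.2.1 e.2)
    have hle : F.card ≤ G.card := by
      refine (card_le_card fun s hs => ?_).trans
        (card_image_le (f := fun g : Lb × Lb => (pt R g.1, pt R g.2)))
      obtain ⟨a, ha, e1⟩ := mem_pts.1 (hF.1 s hs).1
      obtain ⟨b, hb, e2⟩ := mem_pts.1 (hF.1 s hs).2.1
      exact mem_image.2 ⟨(a, b), (hm _).2 ⟨ha, hb, by simpa [e1, e2] using hs⟩, by simp [e1, e2]⟩
    obtain ⟨I, h1, h2, h3⟩ := hG.upper (by omega)
    exact ⟨I, h1, h2, by omega⟩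
  · rintro ⟨I, h1, h2, h3⟩
    have hlt : ∀ t ∈ Fr R ∪ I.image (vt R), t < TT R := by
      intro t ht
      rcases mem_union.1 ht with h | h
      · exact (mem_Fr.1 h).1
      · obtain ⟨i, hi, rfl⟩ := mem_image.1 h
        exact vt_lt.2 (h1 i hi)
    have hI : ∀ t ∈ Fr R ∪ I.image (vt R), isV R t → t / W R ∈ I := by
      intro t ht hv
      rcases mem_union.1 ht with h | h
      · exact absurd hv (mem_Fr.1 h).2
      · obtain ⟨i, hi, rfl⟩ := mem_image.1 h
        rwa [vt_div]
    have hX : ∀ s ∈ Fr R ∪ I.image (vt R), ∀ t ∈ Fr R ∪ I.image (vt R), s < t →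
        X (wire R s) (wire R t) := by
      intro s hs t ht hst
      refine X_wire hst (hlt t ht) fun h => h2 _ (hI s hs h.1) _ (hI t ht h.2.1) ?_ h.2.2
      rw [← vt_lt (R := R), vt_of_isV h.1, vt_of_isV h.2.1]; exact hst
    refine ⟨(Fr R ∪ I.image (vt R)).image (wire R), family_iff.2 ⟨fun s hs => ?_, ?_⟩, ?_⟩
    · obtain ⟨t, ht, rfl⟩ := mem_image.1 hs
      refine ⟨mem_pts.2 ⟨_, hlt t ht, rfl⟩, mem_pts.2 ⟨_, hlt t ht, rfl⟩, fun e => ?_⟩
      simpa using pt_inj (a := (true, t)) (b := (false, t)) (hlt t ht) (hlt t ht) e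
    · intro s hs t ht hne
      obtain ⟨s, hs', rfl⟩ := mem_image.1 hs
      obtain ⟨t, ht', rfl⟩ := mem_image.1 ht
      rcases lt_trichotomy s t with h | h | h
      · exact hX s hs' t ht' h
      · exact absurd (by rw [h]) hne
      · exact (hX t ht' s hs' h).symm
    · rw [card_image_of_injOn, card_union_of_disjoint, card_Fr, card_image_of_injective _ vt_inj]
      · omega
      · rw [disjoint_right]
        intro t ht ht'
        obtain ⟨i, -, rfl⟩ := mem_image.1 ht
        exact (mem_Fr.1 ht').2 (isV_vt i)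
      · intro s hs t ht e
        exact congrArg Prod.snd (pt_inj (a := (true, s)) (b := (true, t)) (hlt s hs) (hlt t ht)
          (congrArg Prod.fst e))

end Pool.Agent.P.MP_0d06a5_lc
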