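import Pool.Agent.P.MP_0d06a5_lc.Pert

/-! The point configuration attached to a list of records, and its orientation signs. -/

namespace Pool.Agent.P.MP_0d06a5_lc

/-- A record: type, threshold, lower expiry, upper expiry. -/
abbrev Rec := ℕ × ℕ × ℕ × ℕ

/-- The record number `k`. -/
def rc (R : List Rec) (k : ℕ) : Rec := R.getD k (0, 0, 0, 0)

/-- The conflict relation between an earlier record `i` and a later record `j`. -/
def Adj (R : List Rec) (i j : ℕ) : Prop :=
  ((rc R j).1 = 1 ∧ (rc R i).1 ≠ 1 ∧ (rc R j).2.1 ≤ i ∧ j < (rc R i).2.2.1) ∨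
  ((rc R j).1 = 2 ∧ (rc R i).1 ≠ 2 ∧ (rc R j).2.1 ≤ i ∧ j < (rc R i).2.2.2)

/-- Period. -/
def W (R : List Rec) : ℕ := 2 * R.length + 2
/-- Time of record `k`. -/
def vt (R : List Rec) (k : ℕ) : ℕ := k * W R + (2 * R.length + 1)
/-- Total time. -/
def TT (R : List Rec) : ℕ := vt R R.length
/-- Clipped powers of eight. -/
def pw (R : List Rec) (t : ℕ) : ℤ := ((8 ^ min t (2 * TT R) : ℕ) : ℤ)
/-- Times of records. -/
def isV (R : List Rec) (t : ℕ) : Prop := t % W R = 2 * R.length + 1
instance (R : List Rec) (t : ℕ) : Decidable (isV R t) := by unfold isV; infer_instance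
/-- Unit of height. -/
def UU (R : List Rec) : ℤ := pw R (TT R)
/-- Height of the far points. -/
def YY (R : List Rec) : ℤ := 21 * UU R * UU R
/-- One-sided offset. -/
def cm (R : List Rec) (own t : ℕ) : ℤ :=
  if isV R t ∧ (rc R (t / W R)).1 = own then
    2 * UU R * pw R t - UU R * pw R (vt R (min (rc R (t / W R)).2.1 (t / W R))) else 0
/-- Distance of an end point from the horizontal axis. -/
def hm (R : List Rec) (own e t : ℕ) : ℤ :=
  if isV R t then
    if (rc R (t / W R)).1 = own then 4 * UU R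
    else 2 * UU R + 6 * pw R (t + TT R - vt R (min (max e (t / W R + 1)) R.length))
  else YY R
/-- Offset. -/
def cc (R : List Rec) (t : ℕ) : ℤ := cm R 2 t - cm R 1 t
/-- Height of an end point. -/
def hh (R : List Rec) (a : Bool × ℕ) : ℤ :=
  bif a.1 then hm R 2 (rc R (a.2 / W R)).2.2.2 a.2 else -hm R 1 (rc R (a.2 / W R)).2.2.1 a.2
/-- Unperturbed end points. -/
def base (R : List Rec) (a : Bool × ℕ) : Pt := (cc R a.2 - pw R a.2 * hh R a, hh R a)

variable {R : List Rec}

theorem pw_eq {t : ℕ} (h : t ≤ 2 * TT R) : pw R t = 8 ^ t := by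
  simp [pw, min_eq_left h]

theorem pw_pos (t : ℕ) : 0 < pw R t := by unfold pw; positivity

theorem UU_pos : 0 < UU R := pw_pos _

theorem pw_le {s t : ℕ} (h : s ≤ t) : pw R s ≤ pw R t := by
  unfold pw
  exact_mod_cast Nat.pow_le_pow_right (by norm_num) (by omega)

theorem pw_lt {s t : ℕ} (h : s < t) (ht : t ≤ TT R) : 8 * pw R s ≤ pw R t := by
  rw [pw_eq (by omega), pw_eq (by omega), ← pow_succ']
  exact pow_le_pow_right₀ (by norm_num) h

theorem pw_add {s t : ℕ} (h : s + t ≤ 2 * TT R) : pw R s * pw R t = 8 ^ (s + t) := by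
  rw [pw_eq (by omega), pw_eq (by omega), pow_add]

theorem vt_lt {i j : ℕ} : vt R i < vt R j ↔ i < j := by
  unfold vt
  rw [add_lt_add_iff_right]
  exact Nat.mul_lt_mul_right (by unfold W; omega)

theorem vt_le {i j : ℕ} : vt R i ≤ vt R j ↔ i ≤ j := by
  rw [← not_lt, vt_lt, not_lt]

theorem vt_div (k : ℕ) : vt R k / W R = k := by
  unfold vt
  rw [mul_comm, Nat.mul_add_div (by unfold W; omega), Nat.div_eq_of_lt (by unfold W; omega)]
  rfl

theorem isV_vt (k : ℕ) : isV R (vt R k) := by
  unfold isV vt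
  rw [mul_comm, Nat.mul_add_mod, Nat.mod_eq_of_lt (by unfold W; omega)]

theorem vt_of_isV {t : ℕ} (h : isV R t) : vt R (t / W R) = t := by
  unfold isV at h
  unfold vt
  rw [← h, mul_comm, Nat.div_add_mod]

theorem cm_bd (own t : ℕ) : 0 ≤ cm R own t ∧ cm R own t ≤ 2 * UU R * pw R t := by
  have h1 := pw_pos (R := R) t
  have h2 := UU_pos (R := R)
  unfold cm
  split_ifs with h
  · have h3 := pw_pos (R := R) (vt R (min (rc R (t / W R)).2.1 (t / W R)))
    have h4 : pw R (vt R (min (rc R (t / W R)).2.1 (t / W R))) ≤ pw R t :=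
      pw_le (by conv_rhs => rw [← vt_of_isV h.1]
                exact vt_le.2 (min_le_right _ _))
    constructor <;> nlinarith
  · exact ⟨le_rfl, by positivity⟩

theorem four_le_YY : 4 * UU R ≤ YY R := by
  have h2 := UU_pos (R := R)
  unfold YY; nlinarith

theorem hm_ge (own e t : ℕ) : 2 * UU R ≤ hm R own e t := by
  have h2 := UU_pos (R := R)
  have := four_le_YY (R := R)
  unfold hm
  split_ifs
  · linarith
  · have := pw_pos (R := R) (t + TT R - vt R (min (max e (t / W R + 1)) R.length))
    linarith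
  · linarith

theorem div_lt_of_isV {t : ℕ} (h : isV R t) (ht : t < TT R) : t / W R < R.length := by
  rw [← vt_lt (R := R), vt_of_isV h]; exact ht

theorem hm_le {own e t : ℕ} (h : isV R t) (ht : t < TT R) : hm R own e t ≤ 4 * UU R := by
  unfold hm
  rw [if_pos h]
  split_ifs
  · exact le_rfl
  · have h1 := div_lt_of_isV h ht
    have h2 : vt R (t / W R) < vt R (min (max e (t / W R + 1)) R.length) := vt_lt.2 (by omega)
    rw [vt_of_isV h] at h2
    have h3 := pw_lt (R := R) (s := t + TT R - vt R (min (max e (t / W R + 1)) R.length))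
      (t := TT R) (by omega) le_rfl
    have := pw_pos (R := R) (t + TT R - vt R (min (max e (t / W R + 1)) R.length))
    unfold UU; linarith

theorem hm_far {own e t : ℕ} (h : ¬ isV R t) : hm R own e t = YY R := by simp [hm, h]

theorem cm_far {own t : ℕ} (h : ¬ isV R t) : cm R own t = 0 := by simp [cm, h]

theorem late {own oth : ℕ} (e : ℕ) {s t : ℕ} (hst : s < t) (ht : t < TT R) :
    (cm R own t - cm R oth t) - (cm R own s - cm R oth s) < (pw R t - pw R s) * hm R own e t := by
  have a1 := cm_bd (R := R) own t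
  have a2 := cm_bd (R := R) oth t
  have a3 := cm_bd (R := R) own s
  have a4 := cm_bd (R := R) oth s
  refine ineq1 (pw_pos s) (pw_lt hst ht.le) UU_pos (by linarith) (by linarith) (hm_ge _ _ _) ?_
  by_cases h : isV R t ∧ (rc R (t / W R)).1 = own
  · right; simp [hm, h.1, h.2]
  · left
    have : cm R own t = 0 := by simp only [cm, h, if_false]
    linarith

theorem early_ok {own oth : ℕ} (hne : own ≠ oth) {e s t : ℕ} (hst : s < t) (ht : t < TT R)
    (h : ¬ (isV R s ∧ isV R t ∧ (rc R (t / W R)).1 = own ∧ (rc R (s / W R)).1 ≠ own ∧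
      (rc R (t / W R)).2.1 ≤ s / W R ∧ t / W R < e)) :
    (cm R own t - cm R oth t) - (cm R own s - cm R oth s) < (pw R t - pw R s) * hm R own e s := by
  have a1 := cm_bd (R := R) own t
  have a2 := cm_bd (R := R) oth t
  have a3 := cm_bd (R := R) own s
  have a4 := cm_bd (R := R) oth s
  have b1 := pw_pos (R := R) s
  have b2 := pw_lt hst ht.le
  have b3 := UU_pos (R := R)
  have b4 := hm_ge (R := R) own e s
  by_cases h1 : isV R t ∧ (rc R (t / W R)).1 = own
  swap
  · refine ineq1 b1 b2 b3 (by linarith) (by linarith) b4 (Or.inl ?_)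
    have : cm R own t = 0 := by simp only [cm, h1, if_false]
    linarith
  by_cases h2 : isV R s ∧ (rc R (s / W R)).1 ≠ own
  swap
  · refine ineq1 b1 b2 b3 (by linarith) (by linarith) b4 (Or.inr ?_)
    by_cases h3 : isV R s
    · have : (rc R (s / W R)).1 = own := by tauto
      simp [hm, h3, this]
    · rw [hm_far h3]; exact four_le_YY
  have c1 : s / W R < t / W R := by rw [← vt_lt (R := R), vt_of_isV h1.1, vt_of_isV h2.1]; exact hst
  have c2 := div_lt_of_isV h1.1 ht
  have c3 : cm R oth t = 0 := by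
    have : ¬ (isV R t ∧ (rc R (t / W R)).1 = oth) := fun h' => hne (h1.2.symm.trans h'.2)
    simp only [cm, this, if_false]
  by_cases h3 : (rc R (t / W R)).2.1 ≤ s / W R
  · have h4 : e ≤ t / W R := by by_contra h'; exact h ⟨h2.1, h1.1, h1.2, h2.2, h3, by omega⟩
    have c4 : vt R (min (max e (s / W R + 1)) R.length) ≤ t := by
      conv_rhs => rw [← vt_of_isV h1.1]
      exact vt_le.2 (by omega)
    have c5 : s < vt R (min (max e (s / W R + 1)) R.length) := by
      conv_lhs => rw [← vt_of_isV h2.1]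
      exact vt_lt.2 (by omega)
    simp only [hm, h2.1, h2.2, if_true, if_false]
    refine ineq3 b1 b2 b3 (pw_pos _).le (by linarith) (by linarith) ?_
    unfold UU
    rw [pw_add (by omega), pw_add (by omega)]
    exact pow_le_pow_right₀ (by norm_num) (by omega)
  · have c4 : s < vt R (min (rc R (t / W R)).2.1 (t / W R)) := by
      conv_lhs => rw [← vt_of_isV h2.1]
      exact vt_lt.2 (by omega)
    have c5 : vt R (min (rc R (t / W R)).2.1 (t / W R)) ≤ TT R := vt_le.2 (by omega)
    have c6 : cm R own t = 2 * UU R * pw R t -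
        UU R * pw R (vt R (min (rc R (t / W R)).2.1 (t / W R))) := by simp only [cm, h1, and_self, if_true]
    rw [c3, c6, sub_zero]
    exact ineq2 b1 b2 b3 (pw_lt c4 c5) (by linarith) b4

theorem early_bad {own oth : ℕ} (hne : own ≠ oth) {e s t : ℕ} (hst : s < t) (ht : t < TT R)
    (h : isV R s ∧ isV R t ∧ (rc R (t / W R)).1 = own ∧ (rc R (s / W R)).1 ≠ own ∧
      (rc R (t / W R)).2.1 ≤ s / W R ∧ t / W R < e) :
    (pw R t - pw R s) * hm R own e s < (cm R own t - cm R oth t) - (cm R own s - cm R oth s) := by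
  obtain ⟨hs, ht', h1, h2, h3, h4⟩ := h
  have a4 := cm_bd (R := R) oth s
  have c1 : s / W R < t / W R := by rw [← vt_lt (R := R), vt_of_isV hs, vt_of_isV ht']; exact hst
  have c2 := div_lt_of_isV ht' ht
  have c3 : cm R oth t = 0 := by
    have : ¬ (isV R t ∧ (rc R (t / W R)).1 = oth) := fun h' => hne (h1.symm.trans h'.2)
    simp only [cm, this, if_false]
  have c3' : cm R own s = 0 := by simp only [cm, h2, and_false, if_false]
  have c6 : cm R own t = 2 * UU R * pw R t -
      UU R * pw R (vt R (min (rc R (t / W R)).2.1 (t / W R))) := by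
    simp only [cm, ht', h1, and_self, if_true]
  have c4 : t < vt R (min (max e (s / W R + 1)) R.length) := by
    conv_lhs => rw [← vt_of_isV ht']
    exact vt_lt.2 (by omega)
  have c5 : vt R (min (max e (s / W R + 1)) R.length) ≤ TT R := vt_le.2 (by omega)
  have c7 : vt R (min (rc R (t / W R)).2.1 (t / W R)) ≤ s := by
    conv_rhs => rw [← vt_of_isV hs]
    exact vt_le.2 (by omega)
  rw [c3, c6, sub_zero]
  simp only [hm, hs, h2, if_true, if_false]
  refine ineq4 (pw_pos s) UU_pos (pw_pos _).le (pw_le c7) (by linarith) ?_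
  unfold UU
  rw [pw_add (by omega), pw_add (by omega), ← pow_succ']
  exact pow_le_pow_right₀ (by norm_num) (by omega)

end Pool.Agent.P.MP_0d06a5_lc
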